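import Pool.Agent.X130.CS.Final

/-!
# MP_98ebd8_lc: cNTV spacetimes of every dimension `n ≥ 3` in which the after-2 formula is valid

The answer to Q1 is negative, in every dimension `n = m + 3 ≥ 3`.  The spacetime is
`(ℂ \ {0}) × ℝ × ℝ^m`, with the coordinates `z = r exp (i φ)`, `u`, `f`, and the metric
`-2 r² du σ - u² σ² + (ρ - σ)² + df²`, where `σ = Im (conj z dz) = r² dφ` and
`ρ = Re (conj z dz) = r dr`.  The null hypersurface `u = 0` can be crossed by causal curves only
upwards; inside it the causal curves are the null generators, the logarithmic spirals
`z exp ((1 + i) t)`, which are not closed.  Each point is followed by all the points with `u > 0`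
(go up, around the axis, and down again), and all the points with `u < 0` are on closed causal
curves.  So two incomparable points never have a common predecessor with `u ≥ 0`.
-/

set_option autoImplicit false

namespace Pool.Agent.Results.MP_98ebd8_lc.AfterTwoCounterexample

open Pool.Agent.X130.CS

/-- For every `n ≥ 3` there is a causally non-totally vicious spacetime of dimension `n` (a
connected open subset of a real vector space of dimension `n` with a smooth Lorentzian metric and a
time orientation) on whose after relation the after-2 formula is valid. -/
theorem result : ∀ n : ℕ, 3 ≤ n → ∃ (E : Type) (_ : NormedAddCommGroup E) (_ : NormedSpace ℝ E)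
    (M : Spacetime E), Module.finrank ℝ E = n ∧ M.CNTV ∧ Valid M.after after2 := by
  intro n hn
  obtain ⟨m, rfl⟩ : ∃ m, n = m + 3 := ⟨n - 3, by omega⟩
  exact ⟨Em m, inferInstance, inferInstance, Mm m, finrank_Em m, cntv m, valid m⟩

end Pool.Agent.Results.MP_98ebd8_lc.AfterTwoCounterexample
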